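import Pool.Agent.H73.CBD.Stmts

/-!
# Board cbd, row DOM
-/

set_option autoImplicit false

open Set Filter Topology

namespace Pool.CBD

theorem dom_real (t : ℝ) (z : V) : (t : ℝ) • z = (t : ℂ) • z := by
  funext i
  rw [Pi.smul_apply, Pi.smul_apply, Complex.real_smul, smul_eq_mul]

theorem dom_thm (h1 : HPRStmt) (h2 : HCDStmt) (h3 : HHLStmt) (h4 : ALGStmt) (h5 : ALHStmt) :
    DOMStmt := by
  obtain ⟨hHf, hHc, hHN⟩ := h1
  obtain ⟨_, _, _, hf2, hfd, _, _, _, _⟩ := h4
  obtain ⟨_, _, hNn, _, _⟩ := h5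
  have hHd : Differentiable ℝ H := h2.differentiable (by norm_num)
  have hH0 : ∀ z, 0 ≤ H z := fun z =>
    (sq_nonneg ‖z‖).trans ((hNn z).1.trans (hHN z).1)
  have hfder : ∀ z, fderiv ℝ (fun z => H z - 1) z = fderiv ℝ H z := fun z => fderiv_sub_const 1
  have hball : {z : V | H z - 1 < 0} ⊆ Metric.closedBall 0 1 := by
    intro z hz
    rw [mem_closedBall_zero_iff]
    have h6 : H z < 1 := by
      have : H z - 1 < 0 := hz
      linarith
    have h7 := (hNn z).1.trans (hHN z).1
    have h8 : ‖z‖ ^ 2 < 1 := by linarith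
    nlinarith [norm_nonneg z]
  have hsc : ∀ (t : ℝ) (z : V), H (t • z) = t ^ 2 * H z := by
    intro t z
    rw [dom_real, hHc, Complex.norm_real, Real.norm_eq_abs, sq_abs]
  refine ⟨fun z => H z - 1, h2.sub contDiff_const, ?_, ?_, ?_, ?_, ?_, hfd, ?_, ?_⟩
  · obtain ⟨α, hα, hC⟩ := h3
    refine ⟨α, hα, fun R => ?_⟩
    obtain ⟨C, hC⟩ := hC R
    refine ⟨C, fun z w hz hw => ?_⟩
    rw [hfder, hfder]
    exact hC z w hz hw
  · intro z hz
    rw [hfder]
    intro h0
    have hz1 : H z = 1 := by
      have : H z - 1 = 0 := hz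
      linarith
    have e1 : HasDerivAt (fun t : ℝ => t • z) z 1 := by
      simpa using (hasDerivAt_id (1 : ℝ)).smul_const z
    have e2 : HasFDerivAt H (fderiv ℝ H z) ((fun t : ℝ => t • z) 1) := by
      simp only [one_smul]
      exact (hHd z).hasFDerivAt
    have e3 := e2.comp_hasDerivAt (1 : ℝ) e1
    have e4 : HasDerivAt (fun t : ℝ => t ^ 2 * H z) (2 * H z) 1 := by
      have e5 := (hasDerivAt_pow 2 (1 : ℝ)).mul_const (H z)
      simpa using e5
    have e6 : (H ∘ fun t : ℝ => t • z) = fun t : ℝ => t ^ 2 * H z := by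
      funext t
      exact hsc t z
    rw [e6, h0] at e3
    have e7 := e3.unique e4
    rw [hz1] at e7
    simp at e7
  · exact Metric.isBounded_closedBall.subset hball
  · have hs : StarConvex ℝ (0 : V) {z : V | H z - 1 < 0} := by
      rw [starConvex_zero_iff]
      intro z hz t ht0 ht1
      have h6 : H z - 1 < 0 := hz
      change H (t • z) - 1 < 0
      rw [hsc]
      have h7 : t ^ 2 ≤ 1 := by nlinarith
      nlinarith [hH0 z]
    have h0 : (0 : V) ∈ {z : V | H z - 1 < 0} := by
      change H 0 - 1 < 0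
      have h6 := hsc 0 0
      rw [zero_smul] at h6
      rw [h6]
      norm_num
    exact (hs.isPathConnected h0).isConnected
  · intro z hz
    have h6 : H z - 1 < 0 := hz
    change H (f z) - 1 < 0
    rw [hHf]
    nlinarith [hH0 z]
  · intro L hL hLc
    have e1 : {z : V | H z - 1 < 0} ∩ f ⁻¹' L = f ⁻¹' L := by
      apply inter_eq_self_of_subset_right
      intro z hz
      have h6 : H (f z) - 1 < 0 := hL hz
      rw [hHf] at h6
      change H z - 1 < 0
      nlinarith [hH0 z]
    have e2 : f ⁻¹' L ⊆ {z : V | H z - 1 < 0} := by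
      rw [← e1]
      exact inter_subset_left
    change IsCompact ({z : V | H z - 1 < 0} ∩ f ⁻¹' L)
    rw [e1]
    exact Metric.isCompact_of_isClosed_isBounded (hLc.isClosed.preimage hfd.continuous)
      (Metric.isBounded_closedBall.subset (e2.trans hball))
  · have hN1 : N ![1 / 2, 0] = 1 / 4 := by
      unfold N
      simp
      norm_num
    have hN2 : N ![-(1 / 2), 0] = 1 / 4 := by
      unfold N
      simp
      norm_num
    refine ⟨![1 / 2, 0], ![-(1 / 2), 0], ?_, ?_, ?_, ?_⟩
    · have h6 := (hHN ![1 / 2, 0]).2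
      rw [hN1] at h6
      change H ![1 / 2, 0] - 1 < 0
      linarith
    · have h6 := (hHN ![-(1 / 2), 0]).2
      rw [hN2] at h6
      change H ![-(1 / 2), 0] - 1 < 0
      linarith
    · intro h6
      have h7 := congrFun h6 0
      simp at h7
      norm_num at h7
    · unfold f
      simp

end Pool.CBD
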