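import Pool.Agent.H73.CBD.Stmts

/-!
# Board cbd, row TAU
-/

set_option autoImplicit false

open Set Filter Topology

namespace Pool.CBD

theorem tau_thm (h1 : ALGStmt) : TAUStmt := by
  intro z hz
  obtain ⟨hNf, _, _, _, _, _, hN0, _, hD0⟩ := h1
  have hD := hD0 z hz
  have hN := hN0 z hz
  set a : ℝ := ‖z 0‖ with ha
  set b : ℝ := ‖z 1‖ with hb
  have ha0 : 0 ≤ a := norm_nonneg _
  have hb0 : 0 ≤ b := norm_nonneg _
  have hNz : N z = a ^ 2 + b ^ 2 := rfl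
  have ht : ‖tau z‖ = 2 * a * b * (N z) / (a ^ 4 + b ^ 4) := by
    unfold tau
    rw [norm_mul, norm_mul, norm_mul, Complex.norm_real, Real.norm_eq_abs, Complex.norm_ofNat,
      abs_of_nonneg (div_nonneg hN.le hD.le), ← ha, ← hb]
    ring
  refine ⟨?_, ?_, ?_, ?_⟩
  · rw [ht, div_le_iff₀ hD, hNz]
    nlinarith [sq_nonneg (a - b), sq_nonneg (a ^ 2 - b ^ 2), mul_nonneg ha0 hb0,
      mul_nonneg (add_nonneg (sq_nonneg a) (sq_nonneg b)) (sq_nonneg (a - b))]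
  · intro h2
    rw [ht, div_eq_iff hD.ne', hNz] at h2
    have h3 : (a - b) ^ 2 * (a ^ 2 + a * b + b ^ 2) = 0 := by nlinarith
    rcases mul_eq_zero.1 h3 with h4 | h4
    · exact sub_eq_zero.1 (pow_eq_zero_iff (by norm_num) |>.1 h4)
    · have h5 : 0 ≤ a * b := mul_nonneg ha0 hb0
      have h6 : a ^ 2 = 0 := by nlinarith [sq_nonneg a, sq_nonneg b]
      have h7 : b ^ 2 = 0 := by nlinarith [sq_nonneg a, sq_nonneg b]
      rw [pow_eq_zero_iff (by norm_num)] at h6 h7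
      rw [h6, h7]
  · have hn : ‖nu z‖ = 4 * |a ^ 2 - b ^ 2| * (a * b) / (a ^ 4 + b ^ 4) := by
      unfold nu
      rw [norm_mul, norm_mul, norm_mul, Complex.norm_real, Real.norm_eq_abs, norm_neg,
        Complex.norm_ofNat, RCLike.norm_conj, RCLike.norm_conj, abs_div, abs_of_pos hD, ← ha, ← hb]
      ring
    rw [hn, div_le_iff₀ hD]
    have h2 := sq_abs (a ^ 2 - b ^ 2)
    nlinarith [sq_nonneg (|a ^ 2 - b ^ 2| - 2 * (a * b)), sq_nonneg (a ^ 2 - b ^ 2)]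
  · rw [hNf z, ← ha, ← hb]
    unfold tau
    rw [← ha, ← hb]
    have h2 : ((N z : ℝ) : ℂ) ≠ 0 := by exact_mod_cast hN.ne'
    have h3 : ((a ^ 4 + b ^ 4 : ℝ) : ℂ) ≠ 0 := by exact_mod_cast hD.ne'
    rw [Complex.ofReal_div, Complex.ofReal_mul]
    have h4 : ((2 : ℝ) : ℂ) ≠ 0 := by norm_num
    rw [div_eq_div_iff (mul_ne_zero h4 h3) h2]
    rw [show ((2 : ℝ) : ℂ) = 2 by norm_num]
    field_simp
    ring

end Pool.CBD
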